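import Mathlib

/-!
Squared symplectic and orthogonal contents over hook lengths: both sums equal the number of
partitions of `n` into parts congruent to `2` modulo `4`.
-/

namespace Pool.Agent.Results.MP_80d245_co.SquaredContents

open Finset

/-- The Young diagram of a partition (cells are `0`-indexed pairs `(row, column)`). -/
def yd {n : ℕ} (l : n.Partition) : YoungDiagram :=
  YoungDiagram.ofRowLens (l.parts.sort (· ≥ ·)) (Multiset.pairwise_sort l.parts (· ≥ ·)).sortedGE

/-- `λ_i`, for `i ≥ 1`. -/
def lam (μ : YoungDiagram) (i : ℕ) : ℤ := μ.rowLen (i - 1)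

/-- `λᵗ_j`, for `j ≥ 1`. -/
def lamT (μ : YoungDiagram) (j : ℕ) : ℤ := μ.colLen (j - 1)

/-- The hook length of the cell `(i,j)`, `i, j ≥ 1`. -/
def hook (μ : YoungDiagram) (i j : ℕ) : ℤ := (lam μ i - j) + (lamT μ j - i) + 1

/-- The symplectic content of the cell `(i,j)`, `i, j ≥ 1`. -/
def cSp (μ : YoungDiagram) (i j : ℕ) : ℤ :=
  if i > j then (lam μ i - i) + (lam μ j - j) + 2
  else -(lamT μ i - i) - (lamT μ j - j)

/-- The orthogonal content of the cell `(i,j)`, `i, j ≥ 1`. -/
def cO (μ : YoungDiagram) (i j : ℕ) : ℤ :=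
  if i ≥ j then (lam μ i - i) + (lam μ j - j)
  else -(lamT μ i - i) - (lamT μ j - j) - 2

/-- `S_sp(n)`. -/
def Ssp (n : ℕ) : ℚ := ∑ l : n.Partition, ∏ u ∈ (yd l).cells,
  ((cSp (yd l) (u.1 + 1) (u.2 + 1) : ℚ) / (hook (yd l) (u.1 + 1) (u.2 + 1) : ℚ)) ^ 2

/-- `S_O(n)`. -/
def SO (n : ℕ) : ℚ := ∑ l : n.Partition, ∏ u ∈ (yd l).cells,
  ((cO (yd l) (u.1 + 1) (u.2 + 1) : ℚ) / (hook (yd l) (u.1 + 1) (u.2 + 1) : ℚ)) ^ 2

/-- The number of partitions of `n` into parts congruent to `2` modulo `4`. -/
def twoModFour (n : ℕ) : ℕ :=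
  ((Finset.univ : Finset n.Partition).filter (fun l => ∀ x ∈ l.parts, x % 4 = 2)).card

/-! ### The nonvanishing diagrams -/

/-- Diagrams with Frobenius coordinates `(a | a+1)`. -/
def Fam (μ : YoungDiagram) : Prop := ∀ i, i < μ.rowLen i → μ.colLen i = μ.rowLen i + 1

theorem mem_row {μ : YoungDiagram} {i j : ℕ} : (i, j) ∈ μ ↔ j < μ.rowLen i :=
  YoungDiagram.mem_iff_lt_rowLen

theorem mem_col {μ : YoungDiagram} {i j : ℕ} : (i, j) ∈ μ ↔ i < μ.colLen j :=
  YoungDiagram.mem_iff_lt_colLen

theorem row_iff_col {μ : YoungDiagram} {i j : ℕ} : j < μ.rowLen i ↔ i < μ.colLen j := by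
  rw [← mem_row, mem_col]

/-- In a diagram outside the family some symplectic content vanishes. -/
theorem exists_zero {μ : YoungDiagram} (h : ¬ Fam μ) :
    ∃ i j, (i, j) ∈ μ ∧ cSp μ (i + 1) (j + 1) = 0 := by
  classical
  unfold Fam at h
  push Not at h
  -- the largest bad index
  have hbd : ∀ k, k < μ.rowLen k → k < μ.colLen 0 := by
    intro k hk
    exact row_iff_col.1 (by omega)
  obtain ⟨k, ⟨hk1, hk2⟩, hmax⟩ : ∃ k, (k < μ.rowLen k ∧ μ.colLen k ≠ μ.rowLen k + 1) ∧
      ∀ i, k < i → i < μ.rowLen i → μ.colLen i = μ.rowLen i + 1 := by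
    let T := (range (μ.colLen 0)).filter
      (fun k => k < μ.rowLen k ∧ μ.colLen k ≠ μ.rowLen k + 1)
    have hT : T.Nonempty := by
      obtain ⟨k, hk⟩ := h
      exact ⟨k, Finset.mem_filter.2 ⟨Finset.mem_range.2 (hbd k hk.1), hk⟩⟩
    refine ⟨T.max' hT, (Finset.mem_filter.1 (T.max'_mem hT)).2, ?_⟩
    intro i hi hi2
    by_contra hcon
    have : i ∈ T := Finset.mem_filter.2 ⟨Finset.mem_range.2 (hbd i hi2), hi2, hcon⟩
    exact absurd (T.le_max' i this) (not_le.2 hi)
  have hkk : k < μ.colLen k := row_iff_col.1 hk1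
  rcases lt_or_gt_of_ne hk2 with hc | hc
  · -- `C k ≤ R k`
    have hex : ∃ j, μ.colLen k - k - 1 + μ.colLen j ≤ j + 1 := by
      refine ⟨μ.colLen k + μ.colLen 0, ?_⟩
      have := μ.colLen_anti 0 (μ.colLen k + μ.colLen 0) (Nat.zero_le _)
      omega
    obtain ⟨j0, hj0, hmin⟩ : ∃ j0, μ.colLen k - k - 1 + μ.colLen j0 ≤ j0 + 1 ∧
        ∀ j < j0, ¬ μ.colLen k - k - 1 + μ.colLen j ≤ j + 1 :=
      ⟨Nat.find hex, Nat.find_spec hex, fun j hj => Nat.find_min hex hj⟩
    have h00 : 0 < μ.colLen 0 := row_iff_col.1 (lt_of_lt_of_le (Nat.zero_lt_of_lt hk1)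
      (μ.rowLen_anti 0 k (Nat.zero_le _)))
    have heq : μ.colLen k - k - 1 + μ.colLen j0 = j0 + 1 := by
      by_contra hne
      have hlt : μ.colLen k - k - 1 + μ.colLen j0 < j0 + 1 := lt_of_le_of_ne hj0 hne
      rcases Nat.eq_zero_or_pos j0 with h0 | h0
      · subst h0; omega
      · obtain ⟨j1, rfl⟩ : ∃ j1, j0 = j1 + 1 := ⟨j0 - 1, by omega⟩
        have h1 := hmin j1 (by omega)
        obtain ⟨T, hT⟩ : ∃ T, T = μ.colLen k - k - 1 := ⟨_, rfl⟩
        rw [← hT] at hlt h1
        -- row `i = j0 - T`
        obtain ⟨i, hi⟩ : ∃ i, j1 + 1 = i + T := ⟨j1 + 1 - T, by omega⟩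
        have r1 : j1 < μ.rowLen i := row_iff_col.2 (by omega)
        have r2 : ¬ j1 + 1 < μ.rowLen i := fun hh => by
          have := row_iff_col.1 hh
          omega
        have r3 : μ.rowLen i = i + T := by omega
        rcases Nat.eq_zero_or_pos T with hT0 | hT0
        · rcases Nat.lt_or_ge k i with hki | hki
          · have : (k + 1, k) ∈ μ :=
              μ.up_left_mem (by omega : k + 1 ≤ i) (by omega : k ≤ j1) (mem_row.2 r1)
            have := mem_col.1 this
            omega
          · have : (i, i) ∈ μ := μ.up_left_mem hki hki (mem_row.2 hk1)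
            have := mem_row.1 this
            omega
        · rcases lt_trichotomy i k with hik | hik | hik
          · have := μ.rowLen_anti i k hik.le
            omega
          · subst hik; omega
          · have e1 := hmax i hik (by omega)
            have e2 := μ.colLen_anti k i hik.le
            omega
    -- `k ≤ j0 < R k`
    have hlow : μ.colLen k ≤ j0 + 1 := by
      by_contra hcon
      have m1 : (k, μ.colLen k - 1) ∈ μ := mem_row.2 (by omega)
      have m2 := mem_col.1 m1
      have m3 := μ.colLen_anti j0 (μ.colLen k - 1) (by omega)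
      -- strict monotonicity of `j + 1 - C j`
      omega
    have hmem : (k, j0) ∈ μ := by
      apply mem_col.2
      omega
    refine ⟨k, j0, hmem, ?_⟩
    simp only [cSp, lamT, Nat.add_sub_cancel]
    rw [if_neg (by omega)]
    push_cast
    omega
  · -- `C k ≥ R k + 2`
    have hex : ∃ i, μ.rowLen k - k + μ.rowLen i ≤ i := by
      refine ⟨μ.rowLen k + μ.rowLen 0, ?_⟩
      have := μ.rowLen_anti 0 (μ.rowLen k + μ.rowLen 0) (Nat.zero_le _)
      omega
    obtain ⟨i0, hi0, hmin⟩ : ∃ i0, μ.rowLen k - k + μ.rowLen i0 ≤ i0 ∧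
        ∀ i < i0, ¬ μ.rowLen k - k + μ.rowLen i ≤ i :=
      ⟨Nat.find hex, Nat.find_spec hex, fun j hj => Nat.find_min hex hj⟩
    obtain ⟨T, hT⟩ : ∃ T, T = μ.rowLen k - k := ⟨_, rfl⟩
    rw [← hT] at hi0 hmin
    have heq : T + μ.rowLen i0 = i0 := by
      by_contra hne
      have hlt : T + μ.rowLen i0 < i0 := lt_of_le_of_ne hi0 hne
      obtain ⟨i1, rfl⟩ : ∃ i1, i0 = i1 + 1 := ⟨i0 - 1, by omega⟩
      have h1 := hmin i1 (by omega)
      obtain ⟨m, hm⟩ : ∃ m, i1 = m + T := ⟨i1 - T, by omega⟩
      have c1 : i1 < μ.colLen m := row_iff_col.1 (by omega)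
      have c2 : ¬ i1 + 1 < μ.colLen m := fun hh => by
        have := row_iff_col.2 hh
        omega
      have c3 : μ.colLen m = m + T + 1 := by omega
      rcases lt_trichotomy m k with hmk | hmk | hmk
      · have := μ.colLen_anti m k hmk.le
        omega
      · subst hmk; omega
      · have d1 : m < μ.rowLen m := row_iff_col.2 (by omega)
        have d2 := hmax m hmk d1
        have d3 := μ.rowLen_anti k m hmk.le
        omega
    have hlow : μ.rowLen k < i0 := by
      by_contra hcon
      have m1 : (μ.rowLen k + 1, k) ∈ μ := mem_col.2 (by omega)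
      have m2 := mem_row.1 m1
      have m3 := μ.rowLen_anti i0 (μ.rowLen k + 1) (by omega)
      omega
    have hmem : (i0, k) ∈ μ := by
      apply mem_row.2
      omega
    refine ⟨i0, k, hmem, ?_⟩
    simp only [cSp, lam, Nat.add_sub_cancel]
    rw [if_pos (by omega)]
    push_cast
    omega

theorem hook_pos {μ : YoungDiagram} {i j : ℕ} (h : (i, j) ∈ μ) :
    0 < hook μ (i + 1) (j + 1) := by
  have h1 := mem_row.1 h
  have h2 := mem_col.1 h
  simp only [hook, lam, lamT, Nat.add_sub_cancel]
  push_cast
  omega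

/-- In the family, symplectic contents are plus or minus hook lengths. -/
theorem fam_abs {μ : YoungDiagram} (hf : Fam μ) {i j : ℕ} (h : (i, j) ∈ μ) :
    cSp μ (i + 1) (j + 1) = hook μ (i + 1) (j + 1) ∨
      cSp μ (i + 1) (j + 1) = -hook μ (i + 1) (j + 1) := by
  simp only [cSp, hook, lam, lamT, Nat.add_sub_cancel]
  have h1 := mem_row.1 h
  have h2 := mem_col.1 h
  by_cases hij : j < i
  · left
    rw [if_pos (by omega)]
    have hd : j < μ.rowLen j := mem_row.1 (μ.up_left_mem hij.le le_rfl h)
    have := hf j hd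
    push_cast
    omega
  · right
    rw [if_neg (by omega)]
    have hd : i < μ.rowLen i := mem_row.1 (μ.up_left_mem le_rfl (not_lt.1 hij) h)
    have := hf i hd
    push_cast
    omega

open Classical in
theorem prod_sp (μ : YoungDiagram) : ∏ u ∈ μ.cells,
    ((cSp μ (u.1 + 1) (u.2 + 1) : ℚ) / (hook μ (u.1 + 1) (u.2 + 1) : ℚ)) ^ 2 =
      if Fam μ then 1 else 0 := by
  split_ifs with hf
  · apply Finset.prod_eq_one
    rintro ⟨i, j⟩ hu
    rw [YoungDiagram.mem_cells] at hu
    have hp : (0 : ℚ) < (hook μ (i + 1) (j + 1) : ℚ) := by exact_mod_cast hook_pos hu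
    rcases fam_abs hf hu with h | h
    · simp only [h]
      rw [div_self hp.ne', one_pow]
    · simp only [h]
      push_cast
      rw [neg_div, div_self hp.ne']
      norm_num
  · obtain ⟨i, j, hij, h0⟩ := exists_zero hf
    apply Finset.prod_eq_zero (i := (i, j))
    · rw [YoungDiagram.mem_cells]; exact hij
    · simp only [h0]
      norm_num

theorem cO_eq (μ : YoungDiagram) (i j : ℕ) : cO μ i j = -cSp μ.transpose j i := by
  simp only [cO, cSp, lam, lamT, YoungDiagram.rowLen_transpose, YoungDiagram.colLen_transpose]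
  by_cases h : i ≥ j
  · rw [if_pos h, if_neg (by omega)]; ring
  · rw [if_neg h, if_pos (by omega)]; ring

theorem hook_eq (μ : YoungDiagram) (i j : ℕ) : hook μ i j = hook μ.transpose j i := by
  simp only [hook, lam, lamT, YoungDiagram.rowLen_transpose, YoungDiagram.colLen_transpose]
  ring

open Classical in
theorem prod_O (μ : YoungDiagram) : ∏ u ∈ μ.cells,
    ((cO μ (u.1 + 1) (u.2 + 1) : ℚ) / (hook μ (u.1 + 1) (u.2 + 1) : ℚ)) ^ 2 =
      if Fam μ.transpose then 1 else 0 := by
  rw [← prod_sp]
  apply Finset.prod_bij (fun u _ => Prod.swap u)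
  · intro u hu
    rw [YoungDiagram.mem_cells] at hu ⊢
    rw [YoungDiagram.mem_transpose, Prod.swap_swap]
    exact hu
  · intro u _ v _ h
    exact Prod.swap_injective h
  · intro u hu
    rw [YoungDiagram.mem_cells, YoungDiagram.mem_transpose] at hu
    exact ⟨u.swap, by rw [YoungDiagram.mem_cells]; exact hu, Prod.swap_swap u⟩
  · intro u _
    rw [cO_eq, hook_eq]
    push_cast
    rw [neg_div, neg_sq]
    rfl

/-! ### Diagrams of size `n` -/

/-- The Young diagrams with `n` cells. -/
noncomputable def YD (n : ℕ) : Finset YoungDiagram := by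
  classical exact (Finset.univ : Finset n.Partition).image yd

theorem yd_injective (n : ℕ) : Function.Injective (yd : n.Partition → YoungDiagram) := by
  intro l l' h
  have h1 : ∀ l : n.Partition, (yd l).rowLens = l.parts.sort (· ≥ ·) := by
    intro l
    apply YoungDiagram.rowLens_ofRowLens_eq_self
    intro x hx
    exact l.parts_pos ((Multiset.mem_sort _).1 hx)
  have h2 := h1 l
  rw [h, h1 l'] at h2
  apply Nat.Partition.ext
  rw [← Multiset.sort_eq l.parts (· ≥ ·), ← h2, Multiset.sort_eq]

theorem card_rows (μ : YoungDiagram) : μ.cells.card = μ.rowLens.sum := by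
  classical
  have h1 : μ.cells = (range (μ.colLen 0)).biUnion (fun i => μ.row i) := by
    ext ⟨i, j⟩
    simp only [Finset.mem_biUnion, Finset.mem_range, YoungDiagram.mem_row_iff,
      YoungDiagram.mem_cells]
    constructor
    · intro h
      exact ⟨i, mem_col.1 (μ.up_left_mem le_rfl (Nat.zero_le j) h), h, rfl⟩
    · rintro ⟨_, _, h, _⟩
      exact h
  rw [h1, Finset.card_biUnion]
  · rw [Finset.sum_congr rfl (fun i _ => (μ.rowLen_eq_card (i := i)).symm), YoungDiagram.rowLens]
    change ((Multiset.range (μ.colLen 0)).map μ.rowLen).sum = _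
    rw [← Multiset.coe_range, Multiset.map_coe, Multiset.sum_coe]
  · intro i _ j _ hij
    rw [Function.onFun, Finset.disjoint_left]
    intro c hc hc'
    rw [YoungDiagram.mem_row_iff] at hc hc'
    exact hij (hc.2.symm.trans hc'.2)

theorem mem_YD {n : ℕ} {μ : YoungDiagram} : μ ∈ YD n ↔ μ.cells.card = n := by
  classical
  rw [YD, Finset.mem_image]
  constructor
  · rintro ⟨l, _, rfl⟩
    have h1 : (yd l).rowLens = l.parts.sort (· ≥ ·) := by
      apply YoungDiagram.rowLens_ofRowLens_eq_self
      intro x hx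
      exact l.parts_pos ((Multiset.mem_sort _).1 hx)
    rw [card_rows, h1, ← Multiset.sum_coe, Multiset.sort_eq, l.parts_sum]
  · intro h
    rw [card_rows] at h
    refine ⟨⟨(μ.rowLens : Multiset ℕ), fun {x} hx => μ.pos_of_mem_rowLens x (by simpa using hx),
      by rw [Multiset.sum_coe]; exact h⟩, Finset.mem_univ _, ?_⟩
    have h2 : (Multiset.sort (μ.rowLens : Multiset ℕ) (· ≥ ·)) = μ.rowLens := by
      apply List.Perm.eq_of_pairwise (le := (· ≥ ·))
      · intro a b _ _ h1 h2
        exact le_antisymm h2 h1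
      · exact Multiset.pairwise_sort _ _
      · exact μ.rowLens_sorted.pairwise
      · rw [← Multiset.coe_eq_coe, Multiset.sort_eq]
    have h3 : ∀ (w w' : List ℕ) (hw : w.SortedGE) (hw' : w'.SortedGE), w = w' →
        YoungDiagram.ofRowLens w hw = YoungDiagram.ofRowLens w' hw' := by
      intro w w' hw hw' e
      subst e
      rfl
    rw [yd, h3 _ _ _ μ.rowLens_sorted h2, YoungDiagram.ofRowLens_to_rowLens_eq_self]

open Classical in
theorem Ssp_eq (n : ℕ) : Ssp n = ((YD n).filter Fam).card := by
  have h1 : Ssp n = ∑ μ ∈ YD n, if Fam μ then (1 : ℚ) else 0 := by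
    rw [Ssp, YD, Finset.sum_image (fun _ _ _ _ h => yd_injective n h)]
    exact Finset.sum_congr rfl fun l _ => prod_sp (yd l)
  rw [h1, Finset.sum_boole]

open Classical in
theorem SO_eq (n : ℕ) : SO n = ((YD n).filter Fam).card := by
  have h1 : SO n = ∑ μ ∈ YD n, if Fam μ.transpose then (1 : ℚ) else 0 := by
    rw [SO, YD, Finset.sum_image (fun _ _ _ _ h => yd_injective n h)]
    exact Finset.sum_congr rfl fun l _ => prod_O (yd l)
  have hcard : ∀ μ : YoungDiagram, μ.transpose.cells.card = μ.cells.card := by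
    intro μ
    symm
    apply Finset.card_bij (fun u _ => Prod.swap u)
    · intro u hu
      rw [YoungDiagram.mem_cells] at hu ⊢
      rw [YoungDiagram.mem_transpose, Prod.swap_swap]
      exact hu
    · intro u _ v _ h
      exact Prod.swap_injective h
    · intro u hu
      rw [YoungDiagram.mem_cells, YoungDiagram.mem_transpose] at hu
      exact ⟨u.swap, by rw [YoungDiagram.mem_cells]; exact hu, Prod.swap_swap u⟩
  have h2 : ∑ μ ∈ YD n, (if Fam μ.transpose then (1 : ℚ) else 0) =
      ∑ μ ∈ YD n, if Fam μ then (1 : ℚ) else 0 := by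
    apply Finset.sum_bij (fun μ _ => μ.transpose)
    · intro μ hμ
      rw [mem_YD] at hμ ⊢
      rw [hcard]; exact hμ
    · intro μ _ ν _ h
      exact YoungDiagram.transpose_eq_iff.1 h
    · intro μ hμ
      rw [mem_YD] at hμ
      exact ⟨μ.transpose, by rw [mem_YD, hcard]; exact hμ, μ.transpose_transpose⟩
    · intro μ _
      rfl
  rw [h1, h2, Finset.sum_boole]

/-! ### Counting the family -/

/-- Length of the diagonal. -/
noncomputable def dd (μ : YoungDiagram) : ℕ := sInf {i | μ.rowLen i ≤ i}

theorem lt_dd {μ : YoungDiagram} {i : ℕ} : i < dd μ ↔ i < μ.rowLen i := by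
  have hne : {i | μ.rowLen i ≤ i}.Nonempty :=
    ⟨μ.rowLen 0, μ.rowLen_anti 0 _ (Nat.zero_le _)⟩
  constructor
  · intro h
    by_contra hcon
    exact absurd (Nat.sInf_le (show i ∈ {i | μ.rowLen i ≤ i} from not_lt.1 hcon)) (not_le.2 h)
  · intro h
    by_contra hcon
    have h1 := Nat.sInf_mem hne
    rw [Set.mem_ofPred_eq] at h1
    have h2 := μ.rowLen_anti _ i (not_lt.1 hcon)
    have h3 : dd μ = sInf {i | μ.rowLen i ≤ i} := rfl
    rw [← h3] at h1
    omega

/-- The strict partition attached to a diagram. -/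
noncomputable def pts (μ : YoungDiagram) : Multiset ℕ :=
  (Multiset.range (dd μ)).map (fun i => μ.rowLen i - i)

theorem card_fam {μ : YoungDiagram} (hf : Fam μ) : μ.cells.card = 2 * (pts μ).sum := by
  classical
  have h1 : (μ.cells.filter (fun c => c.1 ≤ c.2)).card = (pts μ).sum := by
    have e : μ.cells.filter (fun c => c.1 ≤ c.2) = (range (dd μ)).biUnion
        (fun i => (Ico i (μ.rowLen i)).image (fun j => (i, j))) := by
      ext ⟨i, j⟩
      simp only [Finset.mem_filter, Finset.mem_biUnion, Finset.mem_range, Finset.mem_image,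
        Finset.mem_Ico, Prod.mk.injEq, YoungDiagram.mem_cells]
      constructor
      · rintro ⟨h1, h2⟩
        have h3 := mem_row.1 h1
        exact ⟨i, lt_dd.2 (by omega), j, ⟨h2, h3⟩, rfl, rfl⟩
      · rintro ⟨i', h1, j', ⟨h2, h3⟩, rfl, rfl⟩
        exact ⟨mem_row.2 h3, h2⟩
    rw [e, Finset.card_biUnion]
    · change _ = ∑ i ∈ range (dd μ), (μ.rowLen i - i)
      refine Finset.sum_congr rfl fun i _ => ?_
      rw [Finset.card_image_of_injective _ (fun a b h => (Prod.mk.inj h).2), Nat.card_Ico]
    · intro i _ j _ hij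
      rw [Function.onFun, Finset.disjoint_left]
      intro c hc hc'
      rw [Finset.mem_image] at hc hc'
      obtain ⟨_, _, h1⟩ := hc
      obtain ⟨_, _, h2⟩ := hc'
      exact hij (congrArg Prod.fst (h1.trans h2.symm))
  have h2 : (μ.cells.filter (fun c => ¬ c.1 ≤ c.2)).card = (pts μ).sum := by
    have e : μ.cells.filter (fun c => ¬ c.1 ≤ c.2) = (range (dd μ)).biUnion
        (fun j => (Ico (j + 1) (μ.colLen j)).image (fun i => (i, j))) := by
      ext ⟨i, j⟩
      simp only [Finset.mem_filter, Finset.mem_biUnion, Finset.mem_range, Finset.mem_image,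
        Finset.mem_Ico, Prod.mk.injEq, YoungDiagram.mem_cells]
      constructor
      · rintro ⟨h1, h2⟩
        have h3 := mem_col.1 h1
        have h4 : (j, j) ∈ μ := μ.up_left_mem (by omega) le_rfl h1
        exact ⟨j, lt_dd.2 (mem_row.1 h4), i, ⟨by omega, h3⟩, rfl, rfl⟩
      · rintro ⟨j', h1, i', ⟨h2, h3⟩, rfl, rfl⟩
        exact ⟨mem_col.2 h3, by omega⟩
    rw [e, Finset.card_biUnion]
    · change _ = ∑ i ∈ range (dd μ), (μ.rowLen i - i)
      refine Finset.sum_congr rfl fun i hi => ?_
      rw [Finset.card_image_of_injective _ (fun a b h => (Prod.mk.inj h).1), Nat.card_Ico]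
      have := hf i (lt_dd.1 (Finset.mem_range.1 hi))
      omega
    · intro i _ j _ hij
      rw [Function.onFun, Finset.disjoint_left]
      intro c hc hc'
      rw [Finset.mem_image] at hc hc'
      obtain ⟨_, _, h1⟩ := hc
      obtain ⟨_, _, h2⟩ := hc'
      exact hij (congrArg Prod.snd (h1.trans h2.symm))
  rw [← Finset.card_filter_add_card_filter_not (s := μ.cells) (fun c => c.1 ≤ c.2), h1, h2]
  ring

theorem pts_strict (μ : YoungDiagram) {i j : ℕ} (hij : i < j) (hj : j < dd μ) :
    μ.rowLen j - j < μ.rowLen i - i := by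
  have h1 := lt_dd.1 hj
  have h2 := μ.rowLen_anti i j hij.le
  omega

theorem pts_nodup (μ : YoungDiagram) : (pts μ).Nodup := by
  apply Multiset.Nodup.map_on _ (Multiset.nodup_range _)
  intro i hi j hj hij
  rw [Multiset.mem_range] at hi hj
  rcases lt_trichotomy i j with h | h | h
  · have := pts_strict μ h hj
    omega
  · exact h
  · have := pts_strict μ h hi
    omega

theorem pts_pos (μ : YoungDiagram) {x : ℕ} (hx : x ∈ pts μ) : 0 < x := by
  rw [pts, Multiset.mem_map] at hx
  obtain ⟨i, hi, rfl⟩ := hx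
  have := lt_dd.1 (Multiset.mem_range.1 hi)
  omega

theorem pts_inj {μ ν : YoungDiagram} (hμ : Fam μ) (hν : Fam ν) (h : pts μ = pts ν) : μ = ν := by
  have hd : dd μ = dd ν := by
    have := congrArg Multiset.card h
    simpa [pts] using this
  have hfun : (fun i : Fin (dd μ) => μ.rowLen i - i) = fun i : Fin (dd μ) => ν.rowLen i - i := by
    apply (StrictAnti.range_inj _ _).1
    · ext x
      constructor
      · rintro ⟨i, rfl⟩
        have : μ.rowLen i - i ∈ pts ν := by
          rw [← h, pts, Multiset.mem_map]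
          exact ⟨i, Multiset.mem_range.2 i.2, rfl⟩
        rw [pts, Multiset.mem_map] at this
        obtain ⟨j, hj, hj2⟩ := this
        exact ⟨⟨j, by rw [hd]; exact Multiset.mem_range.1 hj⟩, hj2⟩
      · rintro ⟨i, rfl⟩
        have : ν.rowLen i - i ∈ pts μ := by
          rw [h, pts, Multiset.mem_map]
          exact ⟨i, Multiset.mem_range.2 (by rw [← hd]; exact i.2), rfl⟩
        rw [pts, Multiset.mem_map] at this
        obtain ⟨j, hj, hj2⟩ := this
        exact ⟨⟨j, Multiset.mem_range.1 hj⟩, hj2⟩
    · intro i j hij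
      exact pts_strict μ hij j.2
    · intro i j hij
      exact pts_strict ν hij (by rw [← hd]; exact j.2)
  have hrow : ∀ i, i < dd μ → μ.rowLen i = ν.rowLen i := by
    intro i hi
    have h1 := congrFun hfun ⟨i, hi⟩
    simp only at h1
    have h2 := lt_dd.1 hi
    have h3 := lt_dd.1 (hd ▸ hi)
    omega
  have hcol : ∀ i, i < dd μ → μ.colLen i = ν.colLen i := by
    intro i hi
    rw [hμ i (lt_dd.1 hi), hν i (lt_dd.1 (hd ▸ hi)), hrow i hi]
  ext ⟨i, j⟩
  rw [YoungDiagram.mem_cells, YoungDiagram.mem_cells]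
  by_cases hij : i ≤ j
  · by_cases hi : i < dd μ
    · rw [mem_row, mem_row, hrow i hi]
    · constructor
      · intro h1
        have := mem_row.1 h1
        exact absurd (lt_dd.2 (lt_of_le_of_lt hij this)) hi
      · intro h1
        have := mem_row.1 h1
        have h2 : i < dd ν := lt_dd.2 (lt_of_le_of_lt hij this)
        rw [← hd] at h2
        exact absurd h2 hi
  · by_cases hj : j < dd μ
    · rw [mem_col, mem_col, hcol j hj]
    · constructor
      · intro h1
        have h4 : (j, j) ∈ μ := μ.up_left_mem (by omega) le_rfl h1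
        exact absurd (lt_dd.2 (mem_row.1 h4)) hj
      · intro h1
        have h4 : (j, j) ∈ ν := ν.up_left_mem (by omega) le_rfl h1
        have h5 := lt_dd.2 (mem_row.1 h4)
        rw [← hd] at h5
        exact absurd h5 hj

/-- Construction of a diagram from a strictly decreasing sequence. -/
theorem exists_diagram (d : ℕ) (b : ℕ → ℕ) (hb : ∀ i, i < d → 1 ≤ b i)
    (hgap : ∀ i j, i ≤ j → j < d → b j + (j - i) ≤ b i) :
    ∃ μ : YoungDiagram, Fam μ ∧ pts μ = (Multiset.range d).map b := by
  classical
  let P : ℕ × ℕ → Prop := fun c => (c.1 ≤ c.2 ∧ c.1 < d ∧ c.2 < c.1 + b c.1) ∨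
    (c.2 < c.1 ∧ c.2 < d ∧ c.1 ≤ c.2 + b c.2)
  have hfin : ∀ c, P c → c ∈ range (d + b 0 + 1) ×ˢ range (d + b 0 + 1) := by
    rintro ⟨i, j⟩ h
    rw [Finset.mem_product, Finset.mem_range, Finset.mem_range]
    rcases h with ⟨h1, h2, h3⟩ | ⟨h1, h2, h3⟩
    · have := hgap 0 i (Nat.zero_le _) h2
      simp only at h1 h2 h3 ⊢
      omega
    · have := hgap 0 j (Nat.zero_le _) h2
      simp only at h1 h2 h3 ⊢
      omega
  let μ : YoungDiagram := ⟨(range (d + b 0 + 1) ×ˢ range (d + b 0 + 1)).filter P, by
    rintro ⟨r, c⟩ ⟨r', c'⟩ ⟨hr, hc⟩ h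
    rw [Finset.mem_coe, Finset.mem_filter] at h ⊢
    have hP : P (r', c') := by
      simp only at hr hc
      rcases h.2 with ⟨h1, h2, h3⟩ | ⟨h1, h2, h3⟩
      · simp only at h1 h2 h3
        by_cases hrc : r' ≤ c'
        · left
          have := hgap r' r hr h2
          exact ⟨hrc, by omega, by simp only; omega⟩
        · right
          have := hgap c' r' (by omega) (by omega)
          exact ⟨by omega, by simp only; omega, by simp only; omega⟩
      · simp only at h1 h2 h3
        by_cases hrc : r' ≤ c'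
        · left
          have := hgap r' c' hrc (by omega)
          have := hb c' (by omega)
          exact ⟨hrc, by simp only; omega, by simp only; omega⟩
        · right
          have := hgap c' c hc h2
          exact ⟨by omega, by simp only; omega, by simp only; omega⟩
    exact ⟨hfin _ hP, hP⟩⟩
  have hmem : ∀ i j, (i, j) ∈ μ ↔ P (i, j) := by
    intro i j
    change (i, j) ∈ (range (d + b 0 + 1) ×ˢ range (d + b 0 + 1)).filter P ↔ _
    rw [Finset.mem_filter]
    exact ⟨fun h => h.2, fun h => ⟨hfin _ h, h⟩⟩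
  have hdiag : ∀ i, i < μ.rowLen i ↔ i < d := by
    intro i
    rw [← mem_row, hmem]
    constructor
    · rintro (⟨_, h, _⟩ | ⟨h, _, _⟩)
      · exact h
      · exact absurd h (lt_irrefl _)
    · intro h
      left
      have := hb i h
      exact ⟨le_rfl, h, by simp only; omega⟩
  have hrow : ∀ i, i < d → μ.rowLen i = i + b i := by
    intro i hi
    apply eq_of_forall_lt_iff
    intro j
    rw [← mem_row, hmem]
    have := hb i hi
    constructor
    · rintro (⟨h1, _, h3⟩ | ⟨h1, _, _⟩)
      · exact h3
      · simp only at h1; omega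
    · intro h
      by_cases hij : i ≤ j
      · left; exact ⟨hij, hi, h⟩
      · right
        have := hgap j i (by omega) hi
        exact ⟨by simp only; omega, by simp only; omega, by simp only; omega⟩
  have hcol : ∀ j, j < d → μ.colLen j = j + b j + 1 := by
    intro j hj
    apply eq_of_forall_lt_iff
    intro i
    rw [← mem_col, hmem]
    have := hb j hj
    constructor
    · rintro (⟨h1, _, h3⟩ | ⟨h1, _, h3⟩)
      · simp only at h1; omega
      · simp only at h3; omega
    · intro h
      by_cases hij : i ≤ j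
      · left
        have := hgap i j hij hj
        exact ⟨hij, by simp only; omega, by simp only; omega⟩
      · right
        exact ⟨by simp only; omega, hj, by simp only; omega⟩
  refine ⟨μ, ?_, ?_⟩
  · intro i hi
    have hi' := (hdiag i).1 hi
    rw [hrow i hi', hcol i hi']
  · have hd : dd μ = d := by
      apply eq_of_forall_lt_iff
      intro i
      rw [lt_dd, hdiag]
    rw [pts, hd]
    apply Multiset.map_congr rfl
    intro i hi
    rw [Multiset.mem_range] at hi
    rw [hrow i hi]
    omega

open Classical in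
theorem fam_card (m : ℕ) : ((YD (2 * m)).filter Fam).card = (Nat.Partition.distincts m).card := by
  have hsum : ∀ μ ∈ (YD (2 * m)).filter Fam, (pts μ).sum = m := by
    intro μ hμ
    rw [Finset.mem_filter, mem_YD] at hμ
    have := card_fam hμ.2
    omega
  apply Finset.card_bij (fun μ hμ => (⟨pts μ, fun {x} hx => pts_pos μ hx, hsum μ hμ⟩ : m.Partition))
  · intro μ hμ
    rw [Nat.Partition.distincts, Finset.mem_filter]
    exact ⟨Finset.mem_univ _, pts_nodup μ⟩
  · intro μ hμ ν hν h
    rw [Finset.mem_filter] at hμ hν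
    exact pts_inj hμ.2 hν.2 (congrArg Nat.Partition.parts h)
  · intro l hl
    rw [Nat.Partition.distincts, Finset.mem_filter] at hl
    let S : Finset ℕ := ⟨l.parts, hl.2⟩
    have hSval : S.val = l.parts := rfl
    let f := S.orderEmbOfFin (k := S.card) rfl
    let b : ℕ → ℕ := fun i => if h : i < S.card then f (Fin.rev ⟨i, h⟩) else 0
    have hb : ∀ i, i < S.card → 1 ≤ b i := by
      intro i hi
      simp only [b, dif_pos hi]
      have : f (Fin.rev ⟨i, hi⟩) ∈ S := S.orderEmbOfFin_mem rfl _
      exact l.parts_pos this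
    have hstep : ∀ i j, i < j → j < S.card → b j < b i := by
      intro i j hij hj
      simp only [b, dif_pos hj, dif_pos (hij.trans hj)]
      apply f.strictMono
      rw [Fin.rev_lt_rev]
      exact hij
    have hgap : ∀ i j, i ≤ j → j < S.card → b j + (j - i) ≤ b i := by
      intro i j hij
      obtain ⟨e, rfl⟩ := Nat.exists_eq_add_of_le hij
      induction e with
      | zero => intro _; simp
      | succ e ih =>
        intro hj
        have h1 := ih (by omega) (by omega)
        have h2 := hstep (i + e) (i + (e + 1)) (by omega) hj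
        omega
    obtain ⟨μ, hf, hp⟩ := exists_diagram S.card b hb hgap
    have hparts : (Multiset.range S.card).map b = l.parts := by
      have h1 : (Finset.range S.card).image b = S := by
        ext x
        rw [Finset.mem_image]
        constructor
        · rintro ⟨i, hi, rfl⟩
          rw [Finset.mem_range] at hi
          simp only [b, dif_pos hi]
          exact S.orderEmbOfFin_mem rfl _
        · intro hx
          have : x ∈ Set.range f := by
            rw [S.range_orderEmbOfFin rfl]; exact hx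
          obtain ⟨k, rfl⟩ := this
          refine ⟨Fin.rev k, Finset.mem_range.2 (Fin.rev k).2, ?_⟩
          simp only [b]
          rw [dif_pos (Fin.rev k).2]
          show f (Fin.rev (Fin.rev k)) = f k
          rw [Fin.rev_rev]
      have hinj : Set.InjOn b (Finset.range S.card : Finset ℕ) := by
        intro i hi j hj hij
        rw [Finset.mem_coe, Finset.mem_range] at hi hj
        rcases lt_trichotomy i j with h | h | h
        · have := hstep i j h hj; omega
        · exact h
        · have := hstep j i h hi; omega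
      have h2 := congrArg Finset.val h1
      rw [Finset.image_val_of_injOn hinj] at h2
      exact h2
    rw [hparts] at hp
    have hμ : μ ∈ (YD (2 * m)).filter Fam := by
      rw [Finset.mem_filter, mem_YD]
      refine ⟨?_, hf⟩
      rw [card_fam hf, hp, l.parts_sum]
    exact ⟨μ, hμ, Nat.Partition.ext hp⟩

open Classical in
theorem fam_odd (m : ℕ) : ((YD (2 * m + 1)).filter Fam).card = 0 := by
  rw [Finset.card_eq_zero, Finset.filter_eq_empty_iff]
  intro μ hμ hf
  rw [mem_YD] at hμ
  have := card_fam hf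
  omega

theorem two_even (m : ℕ) : twoModFour (2 * m) = (Nat.Partition.odds m).card := by
  rw [twoModFour, Nat.Partition.odds, Nat.Partition.restricted]
  symm
  have hs : ∀ l : m.Partition, (l.parts.map (fun x => 2 * x)).sum = 2 * m := by
    intro l
    rw [Multiset.sum_map_mul_left]
    simp [l.parts_sum]
  apply Finset.card_bij (fun l _ => (⟨l.parts.map (fun x => 2 * x), fun {x} hx => by
    obtain ⟨y, hy, rfl⟩ := Multiset.mem_map.1 hx
    have := l.parts_pos hy
    omega, hs l⟩ : (2 * m).Partition))
  · intro l hl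
    rw [Finset.mem_filter] at hl ⊢
    refine ⟨Finset.mem_univ _, ?_⟩
    intro x hx
    obtain ⟨y, hy, rfl⟩ := Multiset.mem_map.1 hx
    have := hl.2 y hy
    rw [Nat.not_even_iff_odd] at this
    obtain ⟨k, hk⟩ := this
    omega
  · intro l _ l' _ h
    have h1 := congrArg Nat.Partition.parts h
    simp only at h1
    apply Nat.Partition.ext
    exact Multiset.map_injective (fun a b h => by simpa using h) h1
  · intro l hl
    rw [Finset.mem_filter] at hl
    have hback : (l.parts.map (fun x => x / 2)).map (fun x => 2 * x) = l.parts := by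
      rw [Multiset.map_map]
      conv_rhs => rw [← Multiset.map_id' l.parts]
      apply Multiset.map_congr rfl
      intro x hx
      have := hl.2 x hx
      simp only [Function.comp]
      omega
    have hsum : (l.parts.map (fun x => x / 2)).sum = m := by
      have h1 := congrArg Multiset.sum hback
      rw [Multiset.sum_map_mul_left, l.parts_sum] at h1
      simp only [Multiset.map_id'] at h1
      omega
    refine ⟨⟨l.parts.map (fun x => x / 2), fun {x} hx => ?_, hsum⟩, ?_, Nat.Partition.ext hback⟩
    · obtain ⟨y, hy, rfl⟩ := Multiset.mem_map.1 hx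
      have := hl.2 y hy
      omega
    · rw [Finset.mem_filter]
      refine ⟨Finset.mem_univ _, ?_⟩
      intro x hx
      obtain ⟨y, hy, rfl⟩ := Multiset.mem_map.1 hx
      have := hl.2 y hy
      rw [Nat.not_even_iff_odd]
      exact ⟨y / 4, by omega⟩

theorem two_odd (m : ℕ) : twoModFour (2 * m + 1) = 0 := by
  rw [twoModFour, Finset.card_eq_zero, Finset.filter_eq_empty_iff]
  intro l _ h
  have : Even l.parts.sum := by
    apply Multiset.sum_induction Even _ (fun a b => Even.add) (by simp)
    intro x hx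
    have := h x hx
    exact ⟨x / 2, by omega⟩
  rw [l.parts_sum] at this
  exact absurd this (by simp)

/-- **Full positive answer to Q1.** -/
theorem result (n : ℕ) : Ssp n = twoModFour n ∧ SO n = twoModFour n := by
  classical
  have key : ((YD n).filter Fam).card = twoModFour n := by
    rcases Nat.even_or_odd' n with ⟨m, rfl | rfl⟩
    · rw [fam_card, two_even, Nat.Partition.card_odds_eq_card_distincts]
    · rw [fam_odd, two_odd]
  rw [Ssp_eq, SO_eq, key]
  exact ⟨rfl, rfl⟩

end Pool.Agent.Results.MP_80d245_co.SquaredContents
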